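import Pool.Agent.Helper81.Sus3.Goals
import Pool.Agent.Helper31.SusD.Time

/-!
# Project SUS3: packet TIM, the time between two messages or guesses
-/

set_option autoImplicit false

namespace Pool.Agent.Helper61.Sus3

open Pool.Agent.Helper65.LinSpace Pool.Agent.Helper78.Mpc Finset
open Pool.Agent.Helper81.Sus2 Pool.Agent.Helper81.Sus3
open Pool.Agent.Helper31.SusD (num_lt_two_pow)

theorem cnt_succ (p : ℕ → Prop) {t i t' : ℕ} (h1 : t ≤ i) (h2 : i < t') (hp : p i) :
    {j : ℕ | i + 1 ≤ j ∧ j < t' ∧ p j}.ncard + 1 ≤ {j : ℕ | t ≤ j ∧ j < t' ∧ p j}.ncard := by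
  have hfin : {j : ℕ | t ≤ j ∧ j < t' ∧ p j}.Finite :=
    (Set.finite_lt_nat t').subset fun j hj => hj.2.1
  have hsub : insert i {j : ℕ | i + 1 ≤ j ∧ j < t' ∧ p j} ⊆ {j : ℕ | t ≤ j ∧ j < t' ∧ p j} := by
    intro j hj
    rcases hj with rfl | hj
    · exact ⟨h1, h2, hp⟩
    · exact ⟨by have := hj.1; omega, hj.2⟩
  have h3 := Set.ncard_le_ncard hsub hfin
  rwa [Set.ncard_insert_of_notMem (fun hj => by have := hj.1; omega)
    (hfin.subset ((Set.subset_insert _ _).trans hsub))] at h3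

theorem cnt_mono (p : ℕ → Prop) {t i t' : ℕ} (h1 : t ≤ i) :
    {j : ℕ | i ≤ j ∧ j < t' ∧ p j}.ncard ≤ {j : ℕ | t ≤ j ∧ j < t' ∧ p j}.ncard := by
  have hfin : {j : ℕ | t ≤ j ∧ j < t' ∧ p j}.Finite :=
    (Set.finite_lt_nat t').subset fun j hj => hj.2.1
  exact Set.ncard_le_ncard (fun j hj => ⟨h1.trans hj.1, hj.2⟩) hfin

theorem cnt_zero (p : ℕ → Prop) {t t' : ℕ} (h : {j : ℕ | t ≤ j ∧ j < t' ∧ p j}.ncard = 0) (i : ℕ)
    (h1 : t ≤ i) (h2 : i < t') : ¬p i := by
  intro h3
  have hfin : {j : ℕ | t ≤ j ∧ j < t' ∧ p j}.Finite :=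
    (Set.finite_lt_nat t').subset fun j hj => hj.2.1
  have h4 := (Set.ncard_eq_zero hfin).1 h
  have h5 : i ∈ {j : ℕ | t ≤ j ∧ j < t' ∧ p j} := ⟨h1, h2, h3⟩
  rw [h4] at h5
  exact h5

variable {A : NBM} {w y : List Bool} {g : ℕ → Bool} {r s a : ℕ}

theorem step_noask (b b' : Bool) (c : List Bool × (List Bool → List Bool)) (h : ¬A.ask c.1 = true) :
    A.step b c = A.step b' c := by
  unfold NBM.step
  have h1 : A.ask c.1 = false := by simpa using h
  rw [h1, Bool.false_and, Bool.false_and]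

theorem conf_loop {i j : ℕ} (hij : i < j) (he : A.conf w y g i = A.conf w y g j)
    (hask : ∀ k, i ≤ k → k < j → ¬A.ask (A.conf w y g k).1 = true) (m : ℕ) :
    A.conf w y g (j + m) = A.conf w y g (i + m) ∧ ¬A.ask (A.conf w y g (i + m)).1 = true := by
  induction m using Nat.strong_induction_on with
  | _ m ih =>
    constructor
    · rcases Nat.eq_zero_or_pos m with rfl | hm
      · exact he.symm
      · obtain ⟨m₀, rfl⟩ : ∃ m₀, m = m₀ + 1 := ⟨m - 1, by omega⟩
        obtain ⟨h1, h2⟩ := ih m₀ (Nat.lt_succ_self _)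
        show A.step (g (j + m₀)) (A.conf w y g (j + m₀)) = A.step (g (i + m₀)) (A.conf w y g (i + m₀))
        rw [h1]
        exact step_noask _ _ _ h2
    · by_cases h : i + m < j
      · exact hask (i + m) (by omega) h
      · obtain ⟨h1, h2⟩ := ih (m - (j - i)) (by omega)
        rw [← h1, show j + (m - (j - i)) = i + m by omega] at h2
        exact h2

/-- Without messages the memory does not change. -/
theorem conf_silent {t t' : ℕ} (htt : t ≤ t')
    (h : ∀ i, t ≤ i → i < t' → ¬A.msg (A.conf w y g (i + 1)).1 = true) :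
    (A.conf w y g t').2 = (A.conf w y g t).2 := by
  induction t', htt using Nat.le_induction with
  | base => rfl
  | succ t' ht ih =>
    rw [← ih fun i h1 h2 => h i h1 (by omega)]
    funext i
    show A.upd (A.conf w y g (t' + 1)).1 i ((A.conf w y g t').2 i) = _
    unfold NBM.upd
    rw [if_neg fun h' => h t' ht (Nat.lt_succ_self _) h'.1]

/-- A silent stretch without guesses before the first accepting time has less than `2 ^ (s + 1)` steps. -/
theorem silent_lt (hfit : A.Fits w y g r s a) (hacc : A.AcceptsAt w y g r)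
    (hmin : ∀ r' < r, ¬A.AcceptsAt w y g r') {t t' : ℕ} (ht : t' ≤ r)
    (h : ∀ i, t ≤ i → i < t' → ¬A.msg (A.conf w y g (i + 1)).1 = true)
    (hask : ∀ i, t ≤ i → i < t' → ¬A.ask (A.conf w y g i).1 = true) :
    t' - t < 2 ^ (s + 1) := by
  by_contra hcon
  have hpos : 0 < 2 ^ (s + 1) := by positivity
  have hne : ∀ i j, t ≤ i → i < j → j ≤ t' → (A.conf w y g i).1 ≠ (A.conf w y g j).1 := by
    intro i j hi hij hj he
    have h1 := conf_silent (A := A) (w := w) (y := y) (g := g) (t := i) (t' := j) hij.le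
      fun k h1 h2 => h k (by omega) (by omega)
    have h2 : A.conf w y g i = A.conf w y g j := Prod.ext he h1.symm
    have h3 := (conf_loop hij h2 (fun k h3 h4 => hask k (by omega) (by omega)) (r - j)).1
    rw [show j + (r - j) = r by omega] at h3
    refine hmin (i + (r - j)) (by omega) ?_
    unfold NBM.AcceptsAt
    rw [← h3]
    exact hacc
  obtain ⟨i, hi, j, hj, hij, e⟩ := exists_ne_map_eq_of_card_lt_of_maps_to
    (s := Icc t t') (t := range (2 ^ (s + 1))) (f := fun i => num (A.conf w y g i).1)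
    (by rw [card_range, Nat.card_Icc]; omega)
    (fun i hi => by
      rw [coe_range, Set.mem_Iio]
      rw [coe_Icc, Set.mem_Icc] at hi
      exact num_lt_two_pow (hfit i (by omega)).1)
  rw [mem_Icc] at hi hj
  have e' : (A.conf w y g i).1 = (A.conf w y g j).1 :=
    Pool.Agent.Helper65.LinSpace.num_injective e
  rcases Nat.lt_or_gt_of_ne hij with h1 | h1
  · exact hne i j hi.1 h1 hj.2 e'
  · exact hne j i hj.1 h1 hi.2 e'.symm

theorem tim_aux (hfit : A.Fits w y g r s a) (hacc : A.AcceptsAt w y g r)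
    (hmin : ∀ r' < r, ¬A.AcceptsAt w y g r') (n : ℕ) : ∀ x u t t' : ℕ, x + u = n → t ≤ t' → t' ≤ r →
    A.msgs w y g t t' ≤ x → A.guesses w y g t t' ≤ u → t' ≤ t + 2 ^ (s + 1) * (n + 1) := by
  classical
  induction n with
  | zero =>
    intro x u t t' hn htt ht hx hu
    obtain ⟨rfl, rfl⟩ : x = 0 ∧ u = 0 := by omega
    have h1 := cnt_zero _ (Nat.le_zero.1 hx)
    have h2 := cnt_zero _ (Nat.le_zero.1 hu)
    have := silent_lt hfit hacc hmin ht h1 h2
    omega
  | succ n ih =>
    intro x u t t' hn htt ht hx hu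
    have h6 : 2 ^ (s + 1) * (n + 1 + 1) = 2 ^ (s + 1) * (n + 1) + 2 ^ (s + 1) := by ring
    by_cases hex : ∃ i, t ≤ i ∧ i < t' ∧
        (A.msg (A.conf w y g (i + 1)).1 = true ∨ A.ask (A.conf w y g i).1 = true)
    · obtain ⟨i, ⟨h1, h2, h3⟩, hm⟩ : ∃ i, (t ≤ i ∧ i < t' ∧
          (A.msg (A.conf w y g (i + 1)).1 = true ∨ A.ask (A.conf w y g i).1 = true)) ∧
          ∀ j < i, ¬(t ≤ j ∧ j < t' ∧
          (A.msg (A.conf w y g (j + 1)).1 = true ∨ A.ask (A.conf w y g j).1 = true)) :=
        ⟨Nat.find hex, Nat.find_spec hex, fun j hj => Nat.find_min hex hj⟩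
      have h4 := silent_lt hfit hacc hmin (t := t) (h2.le.trans ht)
        (fun j h5 h6 h7 => hm j h6 ⟨h5, by omega, Or.inl h7⟩)
        (fun j h5 h6 h7 => hm j h6 ⟨h5, by omega, Or.inr h7⟩)
      have hmx : A.msgs w y g (i + 1) t' ≤ A.msgs w y g t t' := cnt_mono _ (by omega)
      have hgu : A.guesses w y g (i + 1) t' ≤ A.guesses w y g t t' := cnt_mono _ (by omega)
      have h5 : t' ≤ i + 1 + 2 ^ (s + 1) * (n + 1) := by
        rcases h3 with h3 | h3
        · have h7 : A.msgs w y g (i + 1) t' + 1 ≤ A.msgs w y g t t' :=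
            cnt_succ (fun j => A.msg (A.conf w y g (j + 1)).1 = true) h1 h2 h3
          exact ih (x - 1) u (i + 1) t' (by omega) (by omega) ht (by omega) (by omega)
        · have h7 : A.guesses w y g (i + 1) t' + 1 ≤ A.guesses w y g t t' :=
            cnt_succ (fun j => A.ask (A.conf w y g j).1 = true) h1 h2 h3
          exact ih x (u - 1) (i + 1) t' (by omega) (by omega) ht (by omega) (by omega)
      omega
    · push Not at hex
      have h4 := silent_lt hfit hacc hmin (t := t) ht (fun i h1 h2 => (hex i h1 h2).1)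
        (fun i h1 h2 => (hex i h1 h2).2)
      omega

theorem tim : TIM_stmt := by
  intro A w y g r s a hfit hacc hmin x u t t' htt ht hx hu
  exact tim_aux hfit hacc hmin (x + u) x u t t' rfl htt ht hx hu

end Pool.Agent.Helper61.Sus3
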